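import Pool.Agent.W823.QT.Stm

set_option autoImplicit false

/-!
# Solving the recursion
-/

namespace Pool.Agent.W303.QTSOLVE

open Pool.Agent.W823.QT
open scoped ENNReal

/-- products of power series as sums -/
theorem coeff_f0 (k g : ℕ → ℝ≥0∞) (n : ℕ) :
    PowerSeries.coeff n (PowerSeries.mk (fun n => if n = 0 then 0 else k n) *
      PowerSeries.mk g) = ∑ l ∈ Finset.Icc 1 n, k l * g (n - l) := by
  rw [PowerSeries.coeff_mul, Finset.Nat.sum_antidiagonal_eq_sum_range_succ_mk]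
  simp only [PowerSeries.coeff_mk]
  symm
  refine Finset.sum_subset_zero_on_sdiff ?_ ?_ ?_
  · intro l hl
    rw [Finset.mem_Icc] at hl
    rw [Finset.mem_range]
    omega
  · intro l hl
    rw [Finset.mem_sdiff, Finset.mem_range, Finset.mem_Icc] at hl
    have h0 : l = 0 := by omega
    rw [if_pos h0, zero_mul]
  · intro l hl
    rw [Finset.mem_Icc] at hl
    rw [if_neg (by omega)]

/-- first step -/
theorem step1 (A B k k2 : ℕ → ℝ≥0∞) (hA0 : A 0 = 1) (hB0 : B 0 = 0)
    (hAf : ∀ n, A n ≠ ∞) (hBf : ∀ n, B n ≠ ∞)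
    (hA : ∀ n, 1 ≤ n → A n = ∑ l ∈ Finset.Icc 1 n, k l * A (n - l))
    (hB : ∀ n, 1 ≤ n → B n = ∑ l ∈ Finset.Icc 1 n, (k2 l * A (n - l) + k l * B (n - l)))
    (n : ℕ) : B n = ∑ l ∈ Finset.Icc 1 n,
      k2 l * ∑ p ∈ Finset.HasAntidiagonal.antidiagonal (n - l), A p.1 * A p.2 := by
  set PA : PowerSeries ℝ≥0∞ := PowerSeries.mk A with hPA
  set PB : PowerSeries ℝ≥0∞ := PowerSeries.mk B with hPB
  set Pk : PowerSeries ℝ≥0∞ := PowerSeries.mk (fun n => if n = 0 then 0 else k n) with hPk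
  set Pk2 : PowerSeries ℝ≥0∞ := PowerSeries.mk (fun n => if n = 0 then 0 else k2 n) with hPk2
  have e1 : PA = 1 + Pk * PA := by
    ext n
    rw [map_add, hPk, hPA, coeff_f0, PowerSeries.coeff_mk, PowerSeries.coeff_one]
    rcases Nat.eq_zero_or_pos n with h | h
    · subst h
      simp [hA0]
    · rw [if_neg h.ne', zero_add]
      exact hA n h
  have e2 : PB = Pk2 * PA + Pk * PB := by
    ext n
    rw [map_add, hPk, hPA, hPB, hPk2, coeff_f0, coeff_f0, PowerSeries.coeff_mk,
      ← Finset.sum_add_distrib]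
    rcases Nat.eq_zero_or_pos n with h | h
    · subst h
      simp [hB0]
    · exact hB n h
  have e3 : PA * PB = PB + Pk * PA * PB := by
    calc PA * PB = (1 + Pk * PA) * PB := by rw [← e1]
      _ = PB + Pk * PA * PB := by ring
  have e4 : PA * PB = Pk2 * (PA * PA) + Pk * PA * PB := by
    calc PA * PB = PA * (Pk2 * PA + Pk * PB) := by rw [← e2]
      _ = Pk2 * (PA * PA) + Pk * PA * PB := by ring
  have hfin : PowerSeries.coeff n (PA * PB) ≠ ∞ := by
    rw [PowerSeries.coeff_mul]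
    refine ENNReal.sum_ne_top.2 fun p _ => ?_
    rw [hPA, hPB, PowerSeries.coeff_mk, PowerSeries.coeff_mk]
    exact ENNReal.mul_ne_top (hAf _) (hBf _)
  have hfin2 : PowerSeries.coeff n (Pk * PA * PB) ≠ ∞ := by
    refine ne_top_of_le_ne_top hfin ?_
    rw [e3, map_add]
    exact le_add_self
  have e5 : PowerSeries.coeff n PB + PowerSeries.coeff n (Pk * PA * PB) =
      PowerSeries.coeff n (Pk2 * (PA * PA)) + PowerSeries.coeff n (Pk * PA * PB) := by
    rw [← map_add, ← map_add, ← e3, ← e4]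
  have e6 := (ENNReal.add_left_inj hfin2).1 e5
  have e7 : PA * PA = PowerSeries.mk (fun j => ∑ p ∈ Finset.HasAntidiagonal.antidiagonal j, A p.1 * A p.2) := by
    ext j
    rw [PowerSeries.coeff_mul, PowerSeries.coeff_mk]
    refine Finset.sum_congr rfl fun p _ => ?_
    rw [hPA, PowerSeries.coeff_mk, PowerSeries.coeff_mk]
  rw [e7, hPk2, coeff_f0, hPB, PowerSeries.coeff_mk] at e6
  exact e6

/-- the last inequality -/
theorem fin_ineq (b z σ p : ℝ≥0∞) (n : ℕ) (hn : 2 ≤ n) (hb : b ≠ ∞) (hz : z ≠ ∞)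
    (h1 : b ≤ z * (1 + 2 * σ) + p * b) (h2 : σ + n * p ≤ 1 / 2) : b ≤ 2 * z := by
  have hhalf : (1 / 2 : ℝ≥0∞) ≠ ∞ := by
    rw [one_div]
    exact ENNReal.inv_ne_top.2 two_ne_zero
  have hσ : σ ≠ ∞ := ne_top_of_le_ne_top hhalf (le_self_add.trans h2)
  have hnp : (n : ℝ≥0∞) * p ≠ ∞ := ne_top_of_le_ne_top hhalf (le_add_self.trans h2)
  have hp : p ≠ ∞ := by
    rintro rfl
    apply hnp
    rw [ENNReal.mul_top]
    exact_mod_cast (show n ≠ 0 by omega)
  lift b to NNReal using hb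
  lift z to NNReal using hz
  lift σ to NNReal using hσ
  lift p to NNReal using hp
  have h1' : b ≤ z * (1 + 2 * σ) + p * b := by exact_mod_cast h1
  have h2' : σ + n * p ≤ 1 / 2 := by
    have h3 : ((σ + n * p : NNReal) : ℝ≥0∞) ≤ ((1 / 2 : NNReal) : ℝ≥0∞) := by
      refine le_trans (le_of_eq ?_) (h2.trans (le_of_eq ?_))
      · push_cast
        rfl
      · rw [ENNReal.coe_div two_ne_zero]
        rfl
    exact_mod_cast h3
  have h3 : b ≤ 2 * z := by
    rw [← NNReal.coe_le_coe] at h1' h2' ⊢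
    push_cast at h1' h2' ⊢
    have hn' : (2 : ℝ) ≤ n := by exact_mod_cast hn
    have hp0 : (0 : ℝ) ≤ p := p.2
    have hz0 : (0 : ℝ) ≤ z := z.2
    have hσ0 : (0 : ℝ) ≤ σ := σ.2
    have hb0 : (0 : ℝ) ≤ b := b.2
    have h4 : (2 : ℝ) * p ≤ n * p := mul_le_mul_of_nonneg_right hn' hp0
    have h5 : (p : ℝ) ≤ 1 / 4 := by linarith
    have h6 : (b : ℝ) * (1 - p) ≤ 2 * z * (1 - p) := by
      have h7 : (z : ℝ) * (1 + 2 * σ) ≤ z * (2 - 4 * p) :=
        mul_le_mul_of_nonneg_left (by linarith) hz0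
      nlinarith
    exact le_of_mul_le_mul_right h6 (by linarith)
  exact_mod_cast h3

/-- solving the recursion -/
theorem main : SOLVE_T := by
  intro A B k k2 π s hA0 hB0 hA1 hAf hBf hsup hA hB hk2 hs hπ
  have hR : ∀ j : ℕ, ∑ p ∈ Finset.HasAntidiagonal.antidiagonal j, A p.1 * A p.2 ≤ ((j + 1 : ℕ) : ℝ≥0∞) * A j := by
    intro j
    calc ∑ p ∈ Finset.HasAntidiagonal.antidiagonal j, A p.1 * A p.2 ≤ ∑ _p ∈ Finset.HasAntidiagonal.antidiagonal j, A j := by
          refine Finset.sum_le_sum fun p hp => ?_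
          rw [Finset.HasAntidiagonal.mem_antidiagonal] at hp
          rw [← hp]
          exact hsup _ _
      _ = ((j + 1 : ℕ) : ℝ≥0∞) * A j := by
          rw [Finset.sum_const, Finset.Nat.card_antidiagonal, nsmul_eq_mul]
  have hAR : ∀ l n : ℕ, 1 ≤ l → l ≤ n →
      A l * ∑ p ∈ Finset.HasAntidiagonal.antidiagonal (n - l), A p.1 * A p.2 ≤ (n : ℝ≥0∞) * A n := by
    intro l n hl hln
    calc A l * ∑ p ∈ Finset.HasAntidiagonal.antidiagonal (n - l), A p.1 * A p.2
        ≤ A l * (((n - l + 1 : ℕ) : ℝ≥0∞) * A (n - l)) := by gcongr; exact hR _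
      _ = ((n - l + 1 : ℕ) : ℝ≥0∞) * (A l * A (n - l)) := by ring
      _ ≤ (n : ℝ≥0∞) * A n := by
          gcongr
          · omega
          · have := hsup l (n - l)
            rwa [show l + (n - l) = n by omega] at this
  have h1R : ∀ n : ℕ, 1 ≤ n →
      ∑ p ∈ Finset.HasAntidiagonal.antidiagonal (n - 1), A p.1 * A p.2 ≤ (n : ℝ≥0∞) * A n := by
    intro n hn
    refine le_trans ?_ (hAR 1 n le_rfl hn)
    exact le_mul_of_one_le_left zero_le' (hA1 1)
  by_cases hst : s = ∞
  · intro n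
    rcases Nat.eq_zero_or_pos n with h | h
    · subst h
      rw [hB0]
      exact zero_le'
    · have h2 : (2 * (n : ℝ≥0∞) * s * A n) = ∞ := by
        have h3 : (2 * (n : ℝ≥0∞)) ≠ 0 :=
          mul_ne_zero two_ne_zero (by exact_mod_cast h.ne')
        have h4 : A n ≠ 0 := fun h5 => by
          have := hA1 n
          rw [h5] at this
          exact absurd this (by simp)
        rw [hst, ENNReal.mul_top h3, ENNReal.top_mul h4]
      rw [h2]
      exact le_top
  intro n
  induction n using Nat.strong_induction_on with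
  | _ n ih =>
    rcases Nat.eq_zero_or_pos n with h0 | hn
    · subst h0
      rw [hB0]
      exact zero_le'
    have hb := step1 A B k k2 hA0 hB0 hAf hBf hA hB n
    rcases Nat.lt_or_ge n 2 with h2 | h2
    · have h1 : n = 1 := by omega
      subst h1
      rw [Finset.Icc_self, Finset.sum_singleton] at hb
      rw [hb]
      calc k2 1 * ∑ p ∈ Finset.HasAntidiagonal.antidiagonal (1 - 1), A p.1 * A p.2
          ≤ s * (((1 : ℕ) : ℝ≥0∞) * A 1) := mul_le_mul' hs (h1R 1 le_rfl)
        _ ≤ 2 * (s * (((1 : ℕ) : ℝ≥0∞) * A 1)) := le_mul_of_one_le_left zero_le' one_le_two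
        _ = 2 * ((1 : ℕ) : ℝ≥0∞) * s * A 1 := by ring
    · -- the main case
      have hset : Finset.Icc 1 n = insert 1 (insert n (Finset.Ico 2 n)) := by
        ext l
        simp only [Finset.mem_Icc, Finset.mem_insert, Finset.mem_Ico]
        omega
      have hset2 : Finset.Icc 2 n = insert n (Finset.Ico 2 n) := by
        ext l
        simp only [Finset.mem_Icc, Finset.mem_insert, Finset.mem_Ico]
        omega
      have hn1 : (1 : ℕ) ∉ insert n (Finset.Ico 2 n) := by
        simp only [Finset.mem_insert, Finset.mem_Ico]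
        omega
      have hn2 : n ∉ Finset.Ico 2 n := by simp
      have hp := hπ n
      rw [hset2, Finset.sum_insert hn2, add_comm] at hp
      have hz : (n : ℝ≥0∞) * s * A n ≠ ∞ :=
        ENNReal.mul_ne_top (ENNReal.mul_ne_top (ENNReal.natCast_ne_top n) hst) (hAf n)
      have hfin := fin_ineq (B n) ((n : ℝ≥0∞) * s * A n) (∑ l ∈ Finset.Ico 2 n, (l : ℝ≥0∞) * π l)
        (π n) n h2 (hBf n) hz ?_ hp
      · calc B n ≤ 2 * ((n : ℝ≥0∞) * s * A n) := hfin
          _ = 2 * n * s * A n := by ring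
      · have t1 : k2 1 * ∑ p ∈ Finset.HasAntidiagonal.antidiagonal (n - 1), A p.1 * A p.2 ≤
            (n : ℝ≥0∞) * s * A n := by
          calc k2 1 * ∑ p ∈ Finset.HasAntidiagonal.antidiagonal (n - 1), A p.1 * A p.2
              ≤ s * ((n : ℝ≥0∞) * A n) := mul_le_mul' hs (h1R n hn)
            _ = (n : ℝ≥0∞) * s * A n := by ring
        have t2 : k2 n * ∑ p ∈ Finset.HasAntidiagonal.antidiagonal (n - n), A p.1 * A p.2 ≤ π n * B n := by
          rw [Nat.sub_self, Finset.Nat.antidiagonal_zero, Finset.sum_singleton, hA0, mul_one, mul_one]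
          exact hk2 n
        have t3 : ∑ l ∈ Finset.Ico 2 n,
            k2 l * ∑ p ∈ Finset.HasAntidiagonal.antidiagonal (n - l), A p.1 * A p.2 ≤
            (n : ℝ≥0∞) * s * A n * (2 * ∑ l ∈ Finset.Ico 2 n, (l : ℝ≥0∞) * π l) := by
          rw [Finset.mul_sum, Finset.mul_sum]
          refine Finset.sum_le_sum fun l hl => ?_
          rw [Finset.mem_Ico] at hl
          calc k2 l * ∑ p ∈ Finset.HasAntidiagonal.antidiagonal (n - l), A p.1 * A p.2
              ≤ (π l * (2 * l * s * A l)) *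
                ∑ p ∈ Finset.HasAntidiagonal.antidiagonal (n - l), A p.1 * A p.2 := by
                gcongr
                exact (hk2 l).trans (by gcongr; exact ih l hl.2)
            _ = π l * (2 * l * s) *
                (A l * ∑ p ∈ Finset.HasAntidiagonal.antidiagonal (n - l), A p.1 * A p.2) := by ring
            _ ≤ π l * (2 * l * s) * ((n : ℝ≥0∞) * A n) :=
                mul_le_mul' le_rfl (hAR l n (by omega) hl.2.le)
            _ = (n : ℝ≥0∞) * s * A n * (2 * ((l : ℝ≥0∞) * π l)) := by ring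
        rw [hset, Finset.sum_insert hn1, Finset.sum_insert hn2] at hb
        refine (le_of_eq hb).trans ?_
        calc k2 1 * ∑ p ∈ Finset.HasAntidiagonal.antidiagonal (n - 1), A p.1 * A p.2 +
            (k2 n * ∑ p ∈ Finset.HasAntidiagonal.antidiagonal (n - n), A p.1 * A p.2 +
              ∑ l ∈ Finset.Ico 2 n, k2 l * ∑ p ∈ Finset.HasAntidiagonal.antidiagonal (n - l), A p.1 * A p.2)
            ≤ (n : ℝ≥0∞) * s * A n + (π n * B n +
              (n : ℝ≥0∞) * s * A n * (2 * ∑ l ∈ Finset.Ico 2 n, (l : ℝ≥0∞) * π l)) :=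
              add_le_add t1 (add_le_add t2 t3)
          _ = (n : ℝ≥0∞) * s * A n * (1 + 2 * ∑ l ∈ Finset.Ico 2 n, (l : ℝ≥0∞) * π l) +
              π n * B n := by ring

end Pool.Agent.W303.QTSOLVE
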