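import Pool.Agent.W894.HT.MDefs
import Pool.Agent.W505.HTClean
import Pool.Agent.W505.HTRun1
import Pool.Agent.W494.HTRun2
import Pool.Agent.W315.HTNC
import Pool.Agent.W465.HTNsp

/-!
# Project HM (MP_4ed1f9_lc), piece WGRAPH: the signed number of simple paths
-/

set_option autoImplicit false

namespace Pool.Agent.W303.HMWgraph

open Pool.Agent.W894.HT

section gen
variable {N : Type} [DecidableEq N]

lemma sub_filter {S V : List N} (h : S.Sublist V) (hV : V.Nodup) :
    S = V.filter (fun v => decide (v ∈ S)) := by
  induction h with
  | slnil => rfl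
  | @cons S V a h ih =>
    have ha : a ∉ V := (List.nodup_cons.1 hV).1
    have ha2 : a ∉ S := fun h2 => ha (h.subset h2)
    rw [List.filter_cons_of_neg (by simpa using ha2)]
    exact ih (List.nodup_cons.1 hV).2
  | @cons_cons S V a h ih =>
    have ha : a ∉ V := (List.nodup_cons.1 hV).1
    rw [List.filter_cons_of_pos (by simp)]
    congr 1
    rw [ih (List.nodup_cons.1 hV).2]
    apply List.filter_congr
    intro v hv
    have hva : v ≠ a := fun h3 => ha (h3 ▸ hv)
    rw [← ih (List.nodup_cons.1 hV).2]
    simp [hva]

lemma nodup_L {V : List N} (hV : V.Nodup) :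
    (V.sublists'.flatMap List.permutations').Nodup := by
  rw [List.nodup_flatMap]
  constructor
  · intro S hS
    rw [List.mem_sublists'] at hS
    exact (List.permutations_perm_permutations' S).nodup_iff.1
      (List.nodup_permutations S (hS.nodup hV))
  · have h1 : V.sublists'.Nodup := List.nodup_sublists'.2 hV
    have h2 : V.sublists'.Pairwise (fun a b => a ≠ b) := h1
    refine List.Pairwise.imp_of_mem ?_ h2
    intro S T hS hT hST
    rw [List.mem_sublists'] at hS hT
    intro l hl1 hl2
    rw [List.mem_permutations'] at hl1 hl2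
    apply hST
    rw [sub_filter hS hV, sub_filter hT hV]
    apply List.filter_congr
    intro v _
    have : (v ∈ S ↔ v ∈ T) := by rw [← hl1.mem_iff, ← hl2.mem_iff]
    simp [this]

lemma mem_L {V : List N} (hV : V.Nodup) (l : List N) :
    l ∈ V.sublists'.flatMap List.permutations' ↔ l.Nodup ∧ ∀ v ∈ l, v ∈ V := by
  rw [List.mem_flatMap]
  constructor
  · rintro ⟨S, hS, hl⟩
    rw [List.mem_sublists'] at hS
    rw [List.mem_permutations'] at hl
    exact ⟨hl.nodup_iff.2 (hS.nodup hV), fun v hv => hS.subset (hl.mem_iff.1 hv)⟩
  · rintro ⟨h1, h2⟩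
    refine ⟨V.filter (fun v => decide (v ∈ l)), ?_, ?_⟩
    · rw [List.mem_sublists']
      exact List.filter_sublist
    · rw [List.mem_permutations']
      rw [List.perm_ext_iff_of_nodup h1 (hV.filter _)]
      intro v
      rw [List.mem_filter]
      constructor
      · intro hv
        exact ⟨h2 v hv, by simpa using hv⟩
      · rintro ⟨_, hv⟩
        simpa using hv

end gen

lemma wtg_eq {N : Type} (g : N → N → ℤ) (e : N) : ∀ (l : List N) (x : N),
    wtg g e x l = cw g (x :: (l ++ [e]))
  | [], x => by simp [wtg, cw]
  | v :: l, x => by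
    rw [List.cons_append]
    simp only [wtg, cw]
    rw [wtg_eq g e l v]

lemma cw_zero {N : Type} (g : N → N → ℤ) (ad : N → N → Bool)
    (h : ∀ u v, ad u v = false → g u v = 0) : ∀ (l : List N),
    ¬ l.IsChain (fun u v => ad u v = true) → cw g l = 0
  | [], hl => absurd List.isChain_nil hl
  | [a], hl => absurd (List.isChain_singleton a) hl
  | a :: b :: l, hl => by
    simp only [cw]
    by_cases hab : ad a b = true
    · rw [cw_zero g ad h (b :: l), mul_zero]
      intro hc
      exact hl (List.isChain_cons_cons.2 ⟨hab, hc⟩)
    · rw [h a b (by simpa using hab), zero_mul]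

lemma PR_eq (g : Nm → Nm → ℤ) (x e : Nm) (V : List Nm) (hV : V.Nodup) :
    PR 1 g x e V =
      ∑ l ∈ (V.sublists'.flatMap List.permutations').toFinset, cw g (x :: (l ++ [e])) := by
  rw [List.sum_toFinset _ (nodup_L hV)]
  unfold PR
  generalize V.sublists' = M
  induction M with
  | nil => rfl
  | cons a M ih =>
    rw [List.map_cons, List.sum_cons, List.flatMap_cons, List.map_append, List.sum_append, ih]
    congr 2
    apply List.map_congr_left
    intro l _
    rw [one_pow, one_mul, wtg_eq]

theorem mem_allB (n : ℕ) (l : List Bool) : l ∈ allB n ↔ l.length = n := by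
  induction n generalizing l with
  | zero => simp [allB]
  | succ n ih =>
    simp only [allB, List.mem_append, List.mem_map]
    constructor
    · rintro (⟨a, ha, rfl⟩ | ⟨a, ha, rfl⟩)
      · simp [(ih a).1 ha]
      · simp [(ih a).1 ha]
    · intro h
      cases l with
      | nil => simp at h
      | cons b l =>
        have hl : l.length = n := by simpa using h
        cases b
        · left
          exact ⟨l, (ih l).2 hl, rfl⟩
        · right
          exact ⟨l, (ih l).2 hl, rfl⟩

theorem nodup_allB (n : ℕ) : (allB n).Nodup := by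
  induction n with
  | zero => simp [allB]
  | succ n ih =>
    rw [allB, List.nodup_append']
    refine ⟨ih.map (fun a b h => (List.cons.inj h).2), ih.map (fun a b h => (List.cons.inj h).2), ?_⟩
    intro x hx hx'
    obtain ⟨a, _, rfl⟩ := List.mem_map.1 hx
    obtain ⟨b, _, hb⟩ := List.mem_map.1 hx'
    have := (List.cons.inj hb).1
    simp at this

open Classical in
theorem main (h1 : S_WCLEAN) (h2 : S_WPTH) (h3 : S_GW) : S_WGRAPH := by
  intro S τ rest hS hnd hE
  have hne : hub 0 ≠ hub S.length := by
    intro h
    have : S.length = 0 := by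
      simp only [hub, Prod.mk.injEq] at h
      omega
    exact hS (List.length_eq_zero_iff.1 this)
  rw [List.nodup_cons, List.nodup_cons] at hnd
  obtain ⟨h0, h1', hrest⟩ := hnd
  have h0' : hub 0 ∉ rest := fun h => h0 (List.mem_cons_of_mem _ h)
  have hback : ∀ l' : List Nm, isP S l' →
      l' = hub 0 :: (l'.tail.dropLast ++ [hub S.length]) := by
    intro l' h
    obtain ⟨-, hh, hl, -⟩ := h
    cases l' with
    | nil => simp at hh
    | cons a t =>
      simp only [List.head?_cons, Option.some.injEq] at hh
      subst hh
      have ht : t ≠ [] := by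
        rintro rfl
        simp only [List.getLast?_singleton, Option.some.injEq] at hl
        exact hne hl
      have hl2 : t.getLast ht = hub S.length := by
        rw [List.getLast?_eq_getLast_of_ne_nil (List.cons_ne_nil _ _), List.getLast_cons ht] at hl
        exact Option.some.inj hl
      rw [List.tail_cons]
      congr 1
      rw [← hl2]
      exact (List.dropLast_append_getLast ht).symm
  set Q : Finset (List Nm) := (Pool.Agent.W505.HTClean.finite_isP S).toFinset with hQ
  have hQm : ∀ l, l ∈ Q ↔ isP S l := fun l => by
    rw [hQ, Set.Finite.mem_toFinset]; rfl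
  set g : Nm → Nm → ℤ := gw (sE S τ) with hg
  -- step 1: the path sum is the sum over Q
  have step1 : PR 1 g (hub 0) (hub S.length) rest = ∑ l ∈ Q, cw g l := by
    rw [PR_eq g _ _ rest hrest]
    have hinj : Function.Injective
        (fun l : List Nm => hub 0 :: (l ++ [hub S.length])) := by
      intro l l' hll
      simpa using hll
    rw [← Finset.sum_image (f := fun l' => cw g l')
      (g := fun l : List Nm => hub 0 :: (l ++ [hub S.length])) (fun a _ b _ hab => hinj hab)]
    symm
    apply Finset.sum_subset
    · intro l' hl'
      have hP := (hQm l').1 hl'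
      have hb := hback l' hP
      rw [Finset.mem_image]
      refine ⟨l'.tail.dropLast, ?_, hb.symm⟩
      rw [List.mem_toFinset, mem_L hrest]
      have hch := hP.2.2.2
      have hnd := hP.1
      rw [hb] at hch hnd
      rw [List.nodup_cons, List.nodup_append] at hnd
      refine ⟨hnd.2.1, ?_⟩
      intro v hv
      obtain ⟨u, hu⟩ := Pool.Agent.W465.HTNsp.chain_pred _ _ hch v (List.mem_append_left _ hv)
      have hm := Pool.Agent.W465.HTNsp.ad_mem hu hE
      rcases List.mem_cons.1 hm with h | hm
      · exfalso
        apply hnd.1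
        rw [← h]
        exact List.mem_append_left _ hv
      · rcases List.mem_cons.1 hm with h | hm
        · exact absurd h (hnd.2.2.2 v hv _ (List.mem_singleton_self _))
        · exact hm
    · intro l' hl' hn
      rw [Finset.mem_image] at hl'
      obtain ⟨l, hl, rfl⟩ := hl'
      rw [List.mem_toFinset, mem_L hrest] at hl
      rw [hQm] at hn
      apply cw_zero g (adS S) (h3 S τ).2.1
      intro hch
      apply hn
      refine ⟨?_, by simp, ?_, hch⟩
      · rw [List.nodup_cons, List.nodup_append]
        refine ⟨?_, hl.1, by simp, ?_⟩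
        · rw [List.mem_append, List.mem_singleton]
          rintro (h | h)
          · exact h0' (hl.2 _ h)
          · exact hne h
        · intro a ha b hb
          rw [List.mem_singleton] at hb
          rw [hb]
          rintro rfl
          exact h1' (hl.2 _ ha)
      · rw [← List.cons_append, List.getLast?_append]
        simp
  rw [step1, h1 S τ Q hS hQm]
  -- step 2: the clean paths
  have himg : Q.filter (fun l => ∀ g ∈ gads S, cln g l) =
      ((allB S.length).toFinset.filter (fun bs => (lbs S bs).Nodup)).image (pth 0 S) := by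
    ext l
    rw [Finset.mem_filter, Finset.mem_image, hQm]
    constructor
    · rintro ⟨hP, hc⟩
      obtain ⟨bs, hb1, hb2, hb3⟩ := Pool.Agent.W494.HTRun2.main S l hP hc
      refine ⟨bs, ?_, hb3.symm⟩
      rw [Finset.mem_filter, List.mem_toFinset, mem_allB]
      exact ⟨hb1, hb2⟩
    · rintro ⟨bs, hbs, rfl⟩
      rw [Finset.mem_filter, List.mem_toFinset, mem_allB] at hbs
      exact Pool.Agent.W505.HTRun1.main S bs hbs.1 hbs.2
  rw [himg, Finset.sum_image]
  · unfold snc
    rw [← List.sum_toFinset _ (nodup_allB _), Finset.sum_filter]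
    apply Finset.sum_congr rfl
    intro bs hbs
    rw [List.mem_toFinset, mem_allB] at hbs
    by_cases hn : (lbs S bs).Nodup
    · rw [if_pos hn, if_pos hn, h2 S τ bs hbs hn]
    · rw [if_neg hn, if_neg hn]
  · intro bs hbs bs' hbs' he
    simp only [Finset.coe_filter, List.mem_toFinset, mem_allB] at hbs hbs'
    exact Pool.Agent.W315.HTNC.mainI S bs bs' hbs.1 hbs'.1 he

end Pool.Agent.W303.HMWgraph
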