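import Pool.Agent.W982.TA.Grid

/-!
# Min-max area triangulations: the signals match horizontally
-/

set_option autoImplicit false

namespace Pool.Agent.W982.TA

open Pool.Agent.NPC

/-- the rows of the horizontal ports of row `i` of tiles -/
def rowR (φ : List Cl) (i y : ℕ) : Bool :=
  if i = 0 then decide (y = 41 ∨ y = 42)
  else if i = nR φ - 1 then decide (y = 19 ∨ y = 20)
  else decide (y = 23 ∨ y = 24 ∨ y = 41 ∨ y = 42)

/-- the signals of the horizontal ports of row `i` of tiles -/
def rowG (φ : List Cl) (τ : ℕ → Bool) (i y : ℕ) : Bool :=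
  if i = 0 then false
  else if i = nR φ - 1 then true
  else if 41 ≤ y then false else lval τ (litRow i)

theorem i4_R (φ : List Cl) (i j y : ℕ) : hrR (ty φ i j) y = rowR φ i y := by
  unfold ty rowR hrR
  split_ifs <;> first | rfl | omega

theorem i4_L (φ : List Cl) (i j y : ℕ) : hrL (ty φ i (j + 1)) y = rowR φ i y := by
  have hj : j + 1 ≠ 0 := Nat.succ_ne_zero j
  unfold ty rowR
  rw [if_neg hj]
  by_cases h0 : i = 0
  · rw [if_pos h0, if_pos h0]
    rfl
  · rw [if_neg h0, if_neg h0]
    by_cases h1 : i = nR φ - 1
    · rw [if_pos h1, if_pos h1]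
      rfl
    · rw [if_neg h1, if_neg h1]
      split_ifs <;> rfl

theorem i4_bit (a b : Bool) : decide ((a.toNat + 2 * b.toNat) % 2 = 1) = a := by
  cases a <;> cases b <;> rfl

theorem i4_G (φ : List Cl) (τ : ℕ → Bool) (i j y : ℕ) (hi : i < nR φ)
    (hy : rowR φ i y = true) : hs (ty φ i j) (st φ τ i j) y = rowG φ τ i y := by
  have hn : nR φ - 1 ≠ 0 := by unfold nR; omega
  by_cases h0 : i = 0
  · subst h0
    have hy' : 41 ≤ y := by
      unfold rowR at hy
      rw [if_pos rfl] at hy
      have := of_decide_eq_true hy
      omega
    have ht : ty φ 0 j = 5 ∨ ty φ 0 j = 4 := by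
      unfold ty
      rw [if_pos rfl, if_pos rfl]
      split_ifs <;> simp
    have hg : rowG φ τ 0 y = false := by unfold rowG; rw [if_pos rfl]
    rw [hg]
    unfold hs
    rw [if_neg (by omega), if_pos hy']
  · by_cases h1 : i = nR φ - 1
    · have ht : ty φ i j = 7 ∨ ty φ i j = 6 := by
        unfold ty
        rw [if_neg h0, if_neg h0, if_pos h1, if_pos h1]
        split_ifs <;> simp
      have hg : rowG φ τ i y = true := by unfold rowG; rw [if_neg h0, if_pos h1]
      rw [hg]
      unfold hs
      rw [if_pos (by omega)]
    · have hg : rowG φ τ i y = if 41 ≤ y then false else lval τ (litRow i) := by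
        unfold rowG; rw [if_neg h0, if_neg h1]
      rw [hg]
      have ht : ty φ i j < 6 := by
        unfold ty
        rw [if_neg h0, if_neg h0, if_neg h1, if_neg h1]
        split_ifs <;> omega
      unfold hs
      rw [if_neg (by omega)]
      by_cases hy' : 41 ≤ y
      · rw [if_pos hy', if_pos hy']
      · rw [if_neg hy', if_neg hy']
        have hst : st φ τ i j = if j = 0 then (τ ((i - 1) / 2)).toNat
            else (lval τ (litRow i)).toNat + 2 * (bsig φ τ i j).toNat := by
          unfold st
          rw [if_neg (by omega)]
        rw [hst]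
        by_cases hj : j = 0
        · subst hj
          rw [if_pos rfl]
          by_cases ho : i % 2 = 1
          · have : ty φ i 0 = 2 := by
              unfold ty
              rw [if_pos rfl, if_neg h0, if_neg h1, if_pos ho]
            rw [this, if_neg (by omega)]
            unfold lval litRow
            simp only [ho]
            cases τ ((i - 1) / 2) <;> rfl
          · have : ty φ i 0 = 3 := by
              unfold ty
              rw [if_pos rfl, if_neg h0, if_neg h1, if_neg ho]
            rw [this, if_pos rfl]
            unfold lval litRow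
            simp only [ho]
            cases τ ((i - 1) / 2) <;> rfl
        · rw [if_neg hj]
          have : ty φ i j ≠ 3 := by
            unfold ty
            rw [if_neg hj, if_neg h0, if_neg h1]
            split_ifs <;> omega
          rw [if_neg this]
          exact i4_bit _ _

/-- the signals match horizontally -/
theorem i4 : TaskI4 := by
  intro φ τ i hi j _ y
  refine ⟨by rw [i4_R, i4_L], fun h => ?_⟩
  rw [i4_R] at h
  rw [i4_G φ τ i j y hi h, i4_G φ τ i (j + 1) y hi h]

end Pool.Agent.W982.TA
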